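import Pool.Agent.Lib.H78R.R8
import Pool.Agent.Lib.H49D.DD

set_option autoImplicit false

/-!
R9.  Part C of `AC_P`: port of Lib/H89Y/C10.lean to multi-weights.  The fields of H89Y have total
weight at most `c`, so weight at most `c` in every block.
-/

open MvPolynomial

namespace Pool.Agent.H78R

open Pool.Agent.H89T Pool.Agent.H78G Pool.Agent.H53Y Pool.Agent.H89Y Pool.Agent.H53R Pool.Agent.H49D

section gen
variable {σ : Type}

/-- all monomials have `w`-weight at most `d` -/
def Wle (w : (σ →₀ ℕ) →+ ℕ) (d : ℕ) (P : MvPolynomial σ ℂ) : Prop := ∀ μ ∈ P.support, w μ ≤ d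

variable {w : (σ →₀ ℕ) →+ ℕ}

theorem Wle.mono {d d' : ℕ} {P : MvPolynomial σ ℂ} (h : Wle w d P) (hd : d ≤ d') : Wle w d' P :=
  fun m hm => (h m hm).trans hd

theorem Wle.zero (d : ℕ) : Wle w d (0 : MvPolynomial σ ℂ) := by
  intro m hm
  simp at hm

theorem Wle.add {d : ℕ} {P Q : MvPolynomial σ ℂ} (hP : Wle w d P) (hQ : Wle w d Q) :
    Wle w d (P + Q) := by
  classical
  intro m hm
  rcases Finset.mem_union.1 (support_add hm) with h | h
  · exact hP m h
  · exact hQ m h

theorem Wle.mul {d d' : ℕ} {P Q : MvPolynomial σ ℂ} (hP : Wle w d P) (hQ : Wle w d' Q) :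
    Wle w (d + d') (P * Q) := by
  classical
  intro m hm
  obtain ⟨m1, h1, m2, h2, rfl⟩ := Finset.mem_add.1 (support_mul P Q hm)
  rw [map_add]
  exact add_le_add (hP m1 h1) (hQ m2 h2)

theorem Wle.sum {ι : Type} {s : Finset ι} {d : ℕ} {P : ι → MvPolynomial σ ℂ}
    (hP : ∀ i ∈ s, Wle w d (P i)) : Wle w d (∑ i ∈ s, P i) := by
  classical
  induction s using Finset.induction_on with
  | empty => exact Wle.zero d
  | insert i s hi ih =>
    rw [Finset.sum_insert hi]
    exact (hP i (Finset.mem_insert_self _ _)).add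
      (ih fun j hj => hP j (Finset.mem_insert_of_mem hj))

theorem Wle.monomial {d : ℕ} (m : σ →₀ ℕ) (c : ℂ) (hm : w m ≤ d) :
    Wle w d (MvPolynomial.monomial m c) := by
  classical
  intro m' hm'
  have h := support_monomial_subset hm'
  rw [Finset.mem_singleton] at h
  rw [h]
  exact hm

/-- The value of a derivation on a monomial. -/
theorem Wle.deriv_monomial (V : Derivation ℂ (MvPolynomial σ ℂ) (MvPolynomial σ ℂ)) {c : ℕ}
    (hV : ∀ s, Wle w c (V (MvPolynomial.X s))) (m : σ →₀ ℕ) (a : ℂ) :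
    Wle w (w m + c) (V (MvPolynomial.monomial m a)) := by
  classical
  induction m using Finsupp.induction_linear generalizing a with
  | zero =>
    have : V (MvPolynomial.monomial 0 a) = 0 := by
      have h := Derivation.map_algebraMap V a
      exact h
    rw [this]
    exact Wle.zero _
  | add m1 m2 h1 h2 =>
    have h3 : (MvPolynomial.monomial (m1 + m2) a : MvPolynomial σ ℂ)
        = MvPolynomial.monomial m1 a * MvPolynomial.monomial m2 1 := by
      rw [MvPolynomial.monomial_mul, mul_one]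
    rw [h3, Derivation.leibniz, smul_eq_mul, smul_eq_mul, map_add]
    refine Wle.add ?_ ?_
    · have h4 := (Wle.monomial m1 a le_rfl).mul (h2 1)
      exact h4.mono (by omega)
    · have h4 := (Wle.monomial m2 1 le_rfl).mul (h1 a)
      exact h4.mono (by omega)
  | single s e =>
    induction e generalizing a with
    | zero =>
      rw [Finsupp.single_zero]
      have : V (MvPolynomial.monomial 0 a) = 0 := by
        have h := Derivation.map_algebraMap V a
        exact h
      rw [this]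
      exact Wle.zero _
    | succ e ih =>
      have h3 : (MvPolynomial.monomial (Finsupp.single s (e + 1)) a : MvPolynomial σ ℂ)
          = MvPolynomial.monomial (Finsupp.single s e) a * MvPolynomial.X s := by
        rw [MvPolynomial.X, MvPolynomial.monomial_mul, mul_one, ← Finsupp.single_add]
      have h5 : w (Finsupp.single s (e + 1)) = w (Finsupp.single s e) + w (Finsupp.single s 1) := by
        rw [Finsupp.single_add, map_add]
      rw [h3, Derivation.leibniz, smul_eq_mul, smul_eq_mul, h5]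
      refine Wle.add ?_ ?_
      · have h4 := (Wle.monomial (Finsupp.single s e) a le_rfl).mul (hV s)
        exact h4.mono (by omega)
      · have h4 := (Wle.monomial (Finsupp.single s 1) 1 le_rfl).mul (ih a)
        exact h4.mono (by omega)

theorem Wle.deriv {d c : ℕ} {P : MvPolynomial σ ℂ} (hP : Wle w d P)
    (V : Derivation ℂ (MvPolynomial σ ℂ) (MvPolynomial σ ℂ)) (hV : ∀ x, Wle w c (V (X x))) :
    Wle w (d + c) (V P) := by
  rw [P.as_sum, map_sum]
  refine Wle.sum fun m hm => ?_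
  exact (Wle.deriv_monomial V hV m _).mono (Nat.add_le_add_right (hP m hm) c)

end gen

section blocks
variable {β : Type} [DecidableEq β] {m : β → ℕ} {n r : ℕ} {τ : Type}

/-- the weight in the jets of the block `s` -/
def wB (e : Co m ≃ Fin n) (s : β) : (JV n r ⊕ τ →₀ ℕ) →+ ℕ where
  toFun μ := ∑ p : JV n r, if (e.symm p.1).1 = s then ((p.2 : ℕ) + 1) * μ (Sum.inl p) else 0
  map_zero' := by simp
  map_add' μ ν := by
    rw [← Finset.sum_add_distrib]
    refine Finset.sum_congr rfl fun p _ => ?_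
    split_ifs
    · rw [Finsupp.add_apply, mul_add]
    · rfl

theorem wB_le (e : Co m ≃ Fin n) (s : β) (μ : JV n r ⊕ τ →₀ ℕ) : wB e s μ ≤ w0w μ := by
  change (∑ p : JV n r, if (e.symm p.1).1 = s then ((p.2 : ℕ) + 1) * μ (Sum.inl p) else 0) ≤ _
  unfold w0w
  refine Finset.sum_le_sum fun p _ => ?_
  split_ifs
  · exact le_rfl
  · exact Nat.zero_le _

theorem wtb_le' (e : Co m ≃ Fin n) (s : β) (μ : JV n r →₀ ℕ) :
    wtb e s μ ≤ xdb e s μ + (r + 1) * jd μ := by
  have h1 : xdb e s μ = ∑ p : JV n r, if p.2 = 0 then (if (e.symm p.1).1 = s then μ p else 0) else 0 := by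
    unfold xdb
    rw [Fintype.sum_prod_type]
    refine Finset.sum_congr rfl fun b _ => ?_
    rw [Finset.sum_eq_single 0]
    · rw [if_pos rfl]
    · intro l _ hl
      rw [if_neg hl]
    · intro h
      exact absurd (Finset.mem_univ _) h
  rw [h1, wtb, jd, Finset.mul_sum, ← Finset.sum_add_distrib]
  refine Finset.sum_le_sum fun p _ => ?_
  by_cases hs : (e.symm p.1).1 = s
  · rw [if_pos hs]
    by_cases h : p.2 = 0
    · simp [h, hs]
    · simp only [if_neg h, zero_add]
      exact Nat.mul_le_mul_right _ (by omega)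
  · rw [if_neg hs]
    exact Nat.zero_le _

theorem flatT_HasMonB (e : Co m ≃ Fin n) {d : β → ℕ} {M : ℕ}
    {P : MvPolynomial (JV n r) (MvPolynomial τ ℂ)} (hP : HasMonB e d M P) :
    (∀ μ ∈ (flatT P).support, (∑ p : JV n r, if p.2 = 0 then 0 else μ (Sum.inl p)) ≤ M) ∧
      ∀ s, Wle (wB e s) (d s + (r + 1) * M) (flatT P) := by
  constructor
  · intro μ hμ
    obtain ⟨m', hm', h⟩ := c8_flat_support P μ hμ
    simp only [h]
    exact (hP m' hm').2
  · intro s μ hμ
    obtain ⟨m', hm', h⟩ := c8_flat_support P μ hμ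
    change (∑ p : JV n r, if (e.symm p.1).1 = s then ((p.2 : ℕ) + 1) * μ (Sum.inl p) else 0) ≤ _
    simp only [h]
    obtain ⟨h1, h2⟩ := hP m' hm'
    have h3 := wtb_le' e s m'
    have h4 : (r + 1) * jd m' ≤ (r + 1) * M := Nat.mul_le_mul_left _ h2
    have h5 := h1 s
    change wtb e s m' ≤ _
    omega

theorem specT_Wle [Fintype τ] (e : Co m ≃ Fin n) (s : β) {d : ℕ} (a : τ → ℂ)
    {P : MvPolynomial (JV n r ⊕ τ) ℂ} (hP : Wle (wB e s) d P) :
    ∀ μ ∈ (specT a P).support, wtb e s μ ≤ d := by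
  classical
  intro μ hμ
  have h1 : specT a P = ∑ m' ∈ P.support, specT a (monomial m' (P.coeff m')) := by
    rw [← map_sum, ← P.as_sum]
  rw [h1] at hμ
  obtain ⟨m', hm', h3⟩ := Finset.mem_biUnion.1 (support_sum hμ)
  rw [c8_spec_monomial] at h3
  have h4 := Finset.mem_singleton.mp (support_monomial_subset h3)
  subst h4
  exact hP m' hm'

end blocks

theorem app_propP {β : Type} [DecidableEq β] {m : β → ℕ} {ι : Type} [DecidableEq ι] [Fintype ι]
    {sb : ι → β} {dg : ι → ℕ} {n r : ℕ} {e : Co m ≃ Fin n} {c : ℕ} {w : β → ℕ}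
    (L : List (Derivation ℂ (UG m sb dg n r) (UG m sb dg n r))) (hL : ∀ V ∈ L, V ∈ FldG (r := r) e c)
    (P : UG m sb dg n r) (hw : ∀ s, Wle (wB e s) (w s) P) :
    (∀ s, Wle (wB e s) (w s + L.length * c) (app L P)) ∧ (PropU e r P → PropU e r (app L P)) := by
  induction L with
  | nil => exact ⟨fun s => by simpa [app] using hw s, fun h => h⟩
  | cons V L ih =>
    obtain ⟨h1, h2⟩ := ih (fun V' hV' => hL V' (List.mem_cons_of_mem _ hV'))
    obtain ⟨hadm, hV⟩ := hL V List.mem_cons_self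
    have happ : app (V :: L) P = V (app L P) := rfl
    rw [happ]
    refine ⟨fun s => ?_, fun h => (h2 h).field hadm⟩
    refine ((h1 s).deriv V fun x μ hμ => (wB_le e s μ).trans (hV x μ hμ)).mono ?_
    rw [List.length_cons]
    ring_nf
    exact le_rfl

/-- **Part C of `AC_P`.** -/
theorem slantP {β : Type} [Fintype β] [DecidableEq β] (m : β → ℕ) (T : β → Bool) {n r : ℕ}
    (e : Co m ≃ Fin n) (hr : ∀ s, m s ≤ r) : ∃ c : ℕ,
    ∀ {ι : Type} [Fintype ι] [DecidableEq ι] (sb : ι → β) (dg : ι → ℕ),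
      (∀ i, T (sb i) = true → dg i = 1) → (∀ i, T (sb i) = false → r ≤ dg i) →
      ∀ {d : β → ℕ} {M : ℕ} (P : MvPolynomial (JV n r) (MvPolynomial (Cf m sb dg) ℂ)), P ≠ 0 →
      HasMonB e d M P → PropG e (gnG m sb dg) r P →
      ∃ W : MvPolynomial (Fin n ⊕ Cf m sb dg) ℂ, W ≠ 0 ∧
      ∀ (a : Cf m sb dg → ℂ) (ξ : JV n r → ℂ),
      eval (Sum.elim (fun b => ξ (b, 0)) a) W ≠ 0 →
      (∀ i, fv e a (fun b => ξ (b, 0)) i ≠ 0) →
      (∀ s, T s = true → Wd (hr s) (bj e ξ s) ≠ 0) →
      (∀ s, T s = false → ∃ b, ∃ l : Fin (r + 1), (l : ℕ) = 1 ∧ bj e ξ s (b, l) ≠ 0) →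
      ∃ Q : MvPolynomial (JV n r) ℂ, HasWtB e (fun s => d s + (r + 1) * M + M * c) Q ∧
        PropG e a r Q ∧ eval ξ Q ≠ 0 := by
  classical
  obtain ⟨c, hc⟩ := span_SpG m T e hr
  refine ⟨c, ?_⟩
  intro ι _ _ sb dg hT1 hT2 d M P hP0 hP hA
  have hflat : flatT P ≠ 0 := flatT_ne_zero hP0
  obtain ⟨e₀, he⟩ := MvPolynomial.exists_coeff_ne_zero hflat
  obtain ⟨hjd, hwt⟩ := flatT_HasMonB e hP
  refine ⟨jcT (flatT P) e₀, jcT_ne_zero _ _ he, ?_⟩
  intro a ξ hW hF hWd hL1
  have hspan := hc sb dg hT1 hT2 a ξ hF hWd hL1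
  have hres := restrictT_ne_zero a (flatT P) e₀ ξ hW
  have hinl : ∀ p : JV n r, isJT (Sum.inl p : JV n r ⊕ Cf m sb dg) ↔ p.2 ≠ 0 := by
    intro p
    rw [isJT_iff]
    constructor
    · rintro ⟨q, hq, hq2⟩
      rw [Sum.inl_injective hq]
      exact hq2
    · intro h
      exact ⟨p, rfl, h⟩
  have hinr : ∀ x : Cf m sb dg, ¬ isJT (Sum.inr x : JV n r ⊕ Cf m sb dg) := by
    intro x
    rw [isJT_iff]
    rintro ⟨q, hq, _⟩
    exact Sum.inr_ne_inl hq
  obtain ⟨L, hL, hlen, hne⟩ := exists_app_ne_zero (Sum.elim ξ a) (FldG (r := r) e c)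
    hspan {s | isJT s} (flatT P) M (by
      intro μ hμ
      refine le_trans (le_of_eq ?_) (hjd μ hμ)
      rw [Fintype.sum_sum_type]
      have h2 : ∀ α : Cf m sb dg, (if (Sum.inr α : JV n r ⊕ Cf m sb dg) ∈ {s | isJT s} then
          μ (Sum.inr α) else 0) = 0 := fun α => if_neg (hinr α)
      simp only [h2, Finset.sum_const_zero, add_zero]
      refine Finset.sum_congr rfl fun p _ => ?_
      by_cases hp : p.2 = 0
      · rw [if_pos hp, if_neg]
        rw [Set.mem_ofPred_eq, hinl]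
        simpa using hp
      · rw [if_neg hp, if_pos]
        rw [Set.mem_ofPred_eq, hinl]
        exact hp) (by
      have h2 : (fun s => if s ∈ {s | isJT s} then X s else C (Sum.elim ξ a s) :
          JV n r ⊕ Cf m sb dg → UG m sb dg n r) =
          fun s => open Classical in if isJT s then X s else C (Sum.elim ξ a s) := by
        funext s
        by_cases hs : isJT s
        · rw [if_pos hs, if_pos (by rw [Set.mem_ofPred_eq]; exact hs)]
        · rw [if_neg hs, if_neg (by rw [Set.mem_ofPred_eq]; exact hs)]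
      rw [h2]
      exact hres)
  obtain ⟨h1, h2⟩ := app_propP L hL (flatT P) hwt
  refine ⟨specT a (app L (flatT P)), fun s => ?_, ?_, ?_⟩
  · refine specT_Wle e s a ((h1 s).mono ?_)
    have := Nat.mul_le_mul_right c hlen
    change d s + (r + 1) * M + L.length * c ≤ d s + (r + 1) * M + M * c
    omega
  · exact specT_PropU a (h2 (flatT_PropG hA))
  · rw [← eval_specT]
    exact hne

end Pool.Agent.H78R
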