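import Pool.Agent.Lib.H53R.IDE
import Pool.Agent.Lib.H78R.R9

set_option autoImplicit false

/-!
R10.  `AC_P` from the part A (`ExP`) and the part C (`slantP`).
-/

open MvPolynomial

namespace Pool.Agent.H78R

open Pool.Agent.H89T Pool.Agent.H78G Pool.Agent.H53Y Pool.Agent.H89Y Pool.Agent.H53R

/-- Part A of `AC_P`: existence of the operators. -/
def ExP : Prop :=
  ∀ {β : Type} [Fintype β] [DecidableEq β] (m : β → ℕ) {n : ℕ} (e : Co m ≃ Fin n),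
    (∀ s, 1 ≤ m s) → ∀ (r₀ : ℕ) (α : ℝ), 0 < α →
    ∃ r s₀ M : ℕ, 1 ≤ r ∧ r₀ ≤ r ∧ (s₀ : ℝ) ≤ α * r ∧
      ∀ {ι : Type} [Fintype ι] [DecidableEq ι] (sb : ι → β) (dg : ι → ℕ) (Db : β → ℕ),
        (∀ i, dg i = 1 ∨ (2 ≤ dg i ∧ 2 ≤ m (sb i))) → (∀ s, 1 ≤ Db s) →
        (∀ s, Dg sb dg s ≤ Db s) →
        ∃ P : MvPolynomial (JV n r) (MvPolynomial (Cf m sb dg) ℂ), P ≠ 0 ∧
          HasMonB e (fun s => s₀ * Db s) M P ∧ PropG e (gnG m sb dg) r P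

theorem algP_of (hA : ExP) : AC_P := by
  intro β _ _ m T n e hm hT α hα
  classical
  obtain ⟨r, s₀, M, hr1, hr0, hs, hex⟩ := hA m e hm (∑ s, m s) α hα
  have hr : ∀ s, m s ≤ r := fun s =>
    (Finset.single_le_sum (f := m) (fun _ _ => Nat.zero_le _) (Finset.mem_univ s)).trans hr0
  obtain ⟨c, hc⟩ := slantP m T e hr
  refine ⟨r, (r + 1) * M + M * c + r + 1, hr, hr1, ?_⟩
  intro ι _ _ sb dg Db hd1 hd2 hDb1 hDb
  have h1 : ∀ i, dg i = 1 ∨ (2 ≤ dg i ∧ 2 ≤ m (sb i)) := by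
    intro i
    rcases hb : T (sb i) with _ | _
    · right
      exact ⟨by have := hd2 i hb; omega, hT _ hb⟩
    · left
      exact hd1 i hb
  obtain ⟨P, hP0, hPm, hPA⟩ := hex sb dg Db h1 hDb1 hDb
  obtain ⟨W, hW0, hW⟩ := hc sb dg hd1 (fun i hi => by have := hd2 i hi; omega) P hP0 hPm hPA
  refine ⟨W, hW0, fun a ξ g1 g2 g3 g4 => ?_⟩
  obtain ⟨Q, hQw, hQA, hQ0⟩ := hW a ξ g1 g2 g3 g4
  refine ⟨_, Q, fun s => ?_, hQw, hQA, hQ0⟩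
  have h4 : (s₀ : ℝ) * (Db s : ℝ) ≤ α * r * (Db s : ℝ) :=
    mul_le_mul_of_nonneg_right hs (Nat.cast_nonneg _)
  have h5 : (0 : ℝ) ≤ (r : ℝ) := Nat.cast_nonneg _
  push_cast
  linarith

end Pool.Agent.H78R
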