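import Pool.Agent.Lib.H53R.IDE
import Pool.Agent.Lib.H78B.B6
import Pool.Agent.Lib.H78B.B7a

set_option autoImplicit false

/-!
H78R: module E of Lib/H53R (products; MP_2a5ae2_ag, weight 25).  Definitions: the port of
Lib/H78B/B0.lean with one matrix and one family of slopes for every factor.
-/

open MvPolynomial

namespace Pool.Agent.H78R

open Pool.Agent.H89T Pool.Agent.H53Y Pool.Agent.H78B Pool.Agent.H53R

section defs

variable {B : Type} [CommRing B] {n c : ℕ}

/-- The coefficients of the extended forms. -/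
noncomputable def extR [Algebra ℂ B] {τ ιL : Type} {d : ιL → ℕ} (tl : ιL → τ)
    (f : FV (Fin (n + 1)) d → B)
    (A : τ → Matrix (Fin (n + 1)) (Fin (n + 1)) B) (lam : ιL → ℂ) (s : τ → Fin c → Fin n → ℂ)
    (E : ιL → Fin c → MvPolynomial (Fin (n + 1) ⊕ Fin c) ℂ) :
    FV (Fin (n + 1) ⊕ Fin c) d → B :=
  fun x => coeff x.2.1 (big B (lam x.1) (psi (s (tl x.1)) (E x.1)) (subB (A (tl x.1)) (fmB f x.1)))

theorem extR_complex {τ ιL : Type} {d : ιL → ℕ} (tl : ιL → τ) (f : FV (Fin (n + 1)) d → ℂ)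
    (A : τ → Matrix (Fin (n + 1)) (Fin (n + 1)) ℂ) (lam : ιL → ℂ) (s : τ → Fin c → Fin n → ℂ)
    (E : ιL → Fin c → MvPolynomial (Fin (n + 1) ⊕ Fin c) ℂ) :
    extR tl f A lam s E = extP tl f A lam s E := rfl

/-- The parameters of the generic extension of the family `g j`: factors `lam j`, linear forms
`s t i` (the same for all `j` with `tl j = t`), forms `E j i` of degree `d j - 1`. -/
abbrev PR (τ ιL : Type) (n c : ℕ) (d : ιL → ℕ) : Type :=
  ιL ⊕ (τ × Fin c × Fin n) ⊕ (Σ j : ιL, Fin c × Ex (Fin (n + 1) ⊕ Fin c) (d j - 1))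

/-- The generic extension of the form `g` of index `j`. -/
noncomputable def genR {τ ιL : Type} (tl : ιL → τ) (d : ιL → ℕ) (j : ιL)
    (g : MvPolynomial (Fin (n + 1)) B) :
    MvPolynomial (Fin (n + 1) ⊕ Fin c) (MvPolynomial (PR τ ιL n c d) B) :=
  C (X (Sum.inl j)) * (rename Sum.inl (map (C : B →+* MvPolynomial (PR τ ιL n c d) B) g) +
    ∑ i : Fin c, (X (Sum.inr i) +
      ∑ b : Fin n, C (X (Sum.inr (Sum.inl (tl j, i, b)))) * X (Sum.inl b.succ)) *
        fm fun δ : Ex (Fin (n + 1) ⊕ Fin c) (d j - 1) =>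
          (X (Sum.inr (Sum.inr ⟨j, i, δ⟩)) : MvPolynomial (PR τ ιL n c d) B))

end defs

end Pool.Agent.H78R
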