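import Pool.Agent.Lib.H78R.R0

set_option autoImplicit false

/-!
R1, the port of Lib/H78B/B1.lean.  The coefficients of the generic extensions of a family of forms, together with further
elements `θ t` of `K`, are algebraically independent over `ℂ`, if the derivatives span (`hspan`).

Proof.  Copy `H89T.genF_independent` (Lib/H89T/DP7.lean).  The point of the parameters: `lam j = 1`,
`s i b = 0`, `E j i = rename inl (w i j)`.  Apply `H89T.jac (eval pt)` with
`G = Sum.elim (coefficients of genB) (C ∘ θ)`.  Given `v : FV .. ⊕ τ → K`: for every `j` decompose the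
form `fm (fun δ => v (inl ⟨j, δ⟩)) = rename inl (V j) + ∑ i, X (inr i) * H j i` (`H89T.decomp`), apply
`hspan V (v ∘ inr)` to get `D, μ, ν`, and let
`D₁ = mcf D + (mkDerivation K (lam j ↦ C (μ j), s i b ↦ C (ν i b),
  E j i δ ↦ C (coeff δ (H j i - C (μ j) * rename inl (w i j))))).restrictScalars ℂ`.
As in DP7: `map (eval pt) (mcf D₁ (genR tl d j (g j))) = fm (v ∘ inl ⟨j, ·⟩)`, and
`D₁ (C (θ t)) = C (D (θ t))`, so `eval pt` of it is `D (θ t) = v (inr t)`.
-/

open MvPolynomial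

namespace Pool.Agent.H78R

open Pool.Agent.H89T Pool.Agent.H53Y Pool.Agent.H78B Pool.Agent.H53R

theorem gen_independentR {K : Type} [Field K] [Algebra ℂ K] {n c : ℕ} {τ₀ ιL : Type}
    [Fintype ιL] (tl : ιL → τ₀)
    (d : ιL → ℕ) (hd : ∀ j, 1 ≤ d j) (g : ιL → MvPolynomial (Fin (n + 1)) K)
    (hg : ∀ j, (g j).IsHomogeneous (d j)) {τ : Type} [Fintype τ] (θ : τ → K)
    (w : Fin c → ιL → MvPolynomial (Fin (n + 1)) K)
    (hw : ∀ i j, (w i j).IsHomogeneous (d j - 1))
    (hspan : ∀ (f : ιL → MvPolynomial (Fin (n + 1)) K) (v : τ → K),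
      (∀ j, (f j).IsHomogeneous (d j)) →
      ∃ (D : Derivation ℂ K K) (μ : ιL → K) (ν : τ₀ → Fin c → Fin n → K),
        (∀ j, f j = mcf D (g j) + C (μ j) * g j +
          ∑ i, (∑ b, C (ν (tl j) i b) * X b.succ) * w i j) ∧
          ∀ t, D (θ t) = v t)
    (Θ : MvPolynomial (FV (Fin (n + 1) ⊕ Fin c) d ⊕ τ) ℂ)
    (hΘ : aeval (Sum.elim (fun x : FV (Fin (n + 1) ⊕ Fin c) d =>
      (coeff x.2.1 (genR tl d x.1 (g x.1)) : MvPolynomial (PR τ₀ ιL n c d) K))
        (fun t => C (θ t))) Θ = 0) : Θ = 0 := by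
  classical
  -- the point
  set pt : PR τ₀ ιL n c d → K := Sum.elim (fun _ => 1) (Sum.elim (fun _ => 0)
    (fun x => coeff x.2.2.1 (rename Sum.inl (w x.2.1 x.1)))) with hpt
  refine jac (eval pt : MvPolynomial (PR τ₀ ιL n c d) K →+* K) _ (fun v => ?_) Θ hΘ
  choose V₀ H hV₀ hH hV using fun j : ιL =>
    decomp (fm fun δ : Ex (Fin (n + 1) ⊕ Fin c) (d j) => v (Sum.inl ⟨j, δ⟩)) (fm_homogeneous _)
  obtain ⟨D, μ, ν, hV₀', hDθ⟩ := hspan V₀ (fun t => v (Sum.inr t)) hV₀
  set D₁ : Derivation ℂ (MvPolynomial (PR τ₀ ιL n c d) K) (MvPolynomial (PR τ₀ ιL n c d) K) :=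
    mcf D + (mkDerivation K (Sum.elim (fun j => C (μ j)) (Sum.elim (fun x => C (ν x.1 x.2.1 x.2.2))
      (fun x => C (coeff x.2.2.1 (H x.1 x.2.1 - C (μ x.1) *
        rename Sum.inl (w x.2.1 x.1))))))).restrictScalars ℂ
    with hD₁
  have hC : ∀ x : K, D₁ (C x) = C (D x) := by
    intro x
    rw [hD₁, Derivation.add_apply, mcf_C]
    simp
  have hl : ∀ j, D₁ (X (Sum.inl j)) = C (μ j) := by
    intro j
    rw [hD₁, Derivation.add_apply, mcf_X]
    simp [mkDerivation_X]
  have hs : ∀ t i b, D₁ (X (Sum.inr (Sum.inl (t, i, b)))) = C (ν t i b) := by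
    intro t i b
    rw [hD₁, Derivation.add_apply, mcf_X]
    simp [mkDerivation_X]
  have hE : ∀ j i δ, D₁ (X (Sum.inr (Sum.inr ⟨j, i, δ⟩))) =
      C (coeff δ.1 (H j i - C (μ j) * rename Sum.inl (w i j))) := by
    intro j i δ
    rw [hD₁, Derivation.add_apply, mcf_X, zero_add, Derivation.restrictScalars_apply,
      mkDerivation_X]
    rfl
  have hmain : ∀ j, map (eval pt) (mcf D₁ (genR (c := c) tl d j (g j))) =
      fm fun δ : Ex (Fin (n + 1) ⊕ Fin c) (d j) => v (Sum.inl ⟨j, δ⟩) := by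
    intro j
    have hg' : mcf D₁ (map (C : K →+* MvPolynomial (PR τ₀ ιL n c d) K) (g j)) =
        map C (mcf D (g j)) := by
      ext m
      rw [coeff_mcf, coeff_map, coeff_map, coeff_mcf, hC]
    have hev : (eval pt).comp (C : K →+* MvPolynomial (PR τ₀ ιL n c d) K) = RingHom.id K := by
      ext x
      simp
    have hrn : ∀ P : MvPolynomial (Fin (n + 1)) K, map (eval pt)
        (rename (Sum.inl : Fin (n + 1) → Fin (n + 1) ⊕ Fin c)
          (map (C : K →+* MvPolynomial (PR τ₀ ιL n c d) K) P)) = rename Sum.inl P := by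
      intro P
      rw [map_rename, map_map, hev, map_id]
    have hfm : ∀ i : Fin c, map (eval pt) (fm fun δ : Ex (Fin (n + 1) ⊕ Fin c) (d j - 1) =>
        (X (Sum.inr (Sum.inr ⟨j, i, δ⟩)) : MvPolynomial (PR τ₀ ιL n c d) K)) =
        rename Sum.inl (w i j) := by
      intro i
      rw [map_fm]
      have h1 : (fun δ : Ex (Fin (n + 1) ⊕ Fin c) (d j - 1) =>
          eval pt (X (Sum.inr (Sum.inr ⟨j, i, δ⟩)) : MvPolynomial (PR τ₀ ιL n c d) K)) =
          fun δ => coeff δ.1 (rename Sum.inl (w i j)) := by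
        funext δ
        rw [eval_X, hpt]
        rfl
      rw [h1]
      exact fm_coeff (hw i j).rename_isHomogeneous
    have hfm' : ∀ i : Fin c, map (eval pt) (mcf D₁ (fm fun δ :
        Ex (Fin (n + 1) ⊕ Fin c) (d j - 1) =>
        (X (Sum.inr (Sum.inr ⟨j, i, δ⟩)) : MvPolynomial (PR τ₀ ιL n c d) K))) =
        H j i - C (μ j) * rename Sum.inl (w i j) := by
      intro i
      rw [mcf_fm, map_fm]
      have h1 : (fun δ : Ex (Fin (n + 1) ⊕ Fin c) (d j - 1) =>
          eval pt (D₁ (X (Sum.inr (Sum.inr ⟨j, i, δ⟩)) : MvPolynomial (PR τ₀ ιL n c d) K))) =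
          fun δ => coeff δ.1 (H j i - C (μ j) * rename Sum.inl (w i j)) := by
        funext δ
        rw [hE, eval_C]
      rw [h1]
      refine fm_coeff ((hH j i).sub ?_)
      have h2 := (isHomogeneous_C (Fin (n + 1) ⊕ Fin c) (μ j)).mul
        ((hw i j).rename_isHomogeneous (f := (Sum.inl : Fin (n + 1) → Fin (n + 1) ⊕ Fin c)))
      rwa [zero_add] at h2
    have hXl : map (eval pt) (C (X (Sum.inl j)) : MvPolynomial (Fin (n + 1) ⊕ Fin c)
        (MvPolynomial (PR τ₀ ιL n c d) K)) = 1 := by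
      rw [map_C, eval_X, hpt]
      simp
    have hXs : ∀ t i b, map (eval pt) (C (X (Sum.inr (Sum.inl (t, i, b)))) :
        MvPolynomial (Fin (n + 1) ⊕ Fin c) (MvPolynomial (PR τ₀ ιL n c d) K)) = 0 := by
      intro t i b
      rw [map_C, eval_X, hpt]
      simp
    rw [genR, Derivation.leibniz, mcf_C, hl, (mcf D₁).map_add, mcf_rename, hg']
    simp only [map_sum, Derivation.leibniz, map_add, mcf_X, mcf_C, hs, smul_eq_mul, mul_zero,
      zero_add, map_mul, hrn, hfm, hfm', hXl, hXs, map_X, map_C, eval_C, zero_mul, add_zero,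
      Finset.sum_const_zero, one_mul]
    rw [hV j, hV₀' j]
    simp only [map_add, map_mul, map_sum, rename_C, rename_X, Finset.sum_add_distrib, mul_sub,
      Finset.sum_sub_distrib]
    have e1 : ∑ x, X (Sum.inr x) * (C (μ j) * rename Sum.inl (w x j)) =
        (∑ x, X (Sum.inr x) * rename Sum.inl (w x j)) * (C (μ j) : MvPolynomial
          (Fin (n + 1) ⊕ Fin c) K) := by
      rw [Finset.sum_mul]
      exact Finset.sum_congr rfl fun x _ => by ring
    have e2 : ∑ x, rename Sum.inl (w x j) * ∑ y, X (Sum.inl y.succ) * C (ν (tl j) x y) =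
        ∑ x, (∑ y, C (ν (tl j) x y) * X (Sum.inl y.succ)) * (rename Sum.inl (w x j) : MvPolynomial
          (Fin (n + 1) ⊕ Fin c) K) := by
      refine Finset.sum_congr rfl fun x _ => ?_
      rw [mul_comm]
      congr 1
      exact Finset.sum_congr rfl fun y _ => mul_comm _ _
    rw [e1, e2]
    ring
  refine ⟨D₁, fun γ => ?_⟩
  rcases γ with ⟨j, γ⟩ | t
  · have h1 := hmain j
    change eval pt (D₁ (coeff γ.1 (genR (c := c) tl d j (g j)))) = v (Sum.inl ⟨j, γ⟩)
    rw [← coeff_mcf, ← coeff_map, h1]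
    exact coeff_fm _ γ
  · change eval pt (D₁ (C (θ t))) = v (Sum.inr t)
    rw [hC, eval_C]
    exact hDθ t

end Pool.Agent.H78R
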