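import Pool.Agent.Lib.H78R.R8
import Pool.Agent.Lib.H89T.K2

set_option autoImplicit false

/-!
R11.  Lower bound for the number of monomials in `MonB`.
-/

namespace Pool.Agent.H78R

open Pool.Agent.H89T Pool.Agent.H78G Pool.Agent.H53Y Pool.Agent.H89Y Pool.Agent.H53R

theorem xdb_split {β : Type} [DecidableEq β] {m : β → ℕ} {n r : ℕ} (e : Co m ≃ Fin n) (s : β)
    (μ : JV n r →₀ ℕ) :
    xdb e s μ = ∑ b : Fin n, if (e.symm b).1 = s then (splitJet n r μ).1 b else 0 := rfl

theorem card_MonB {β : Type} [DecidableEq β] {m : β → ℕ} {n r : ℕ} (e : Co m ≃ Fin n) (d : β → ℕ)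
    (M : ℕ) : Nat.card (MonB e r d M) =
      Nat.card {f : Fin n → ℕ // ∀ s, (∑ b : Fin n, if (e.symm b).1 = s then f b else 0) ≤ d s} *
        (M + n * r).choose (n * r) := by
  rw [K2_card (fun f : Fin n → ℕ => ∀ s, (∑ b : Fin n, if (e.symm b).1 = s then f b else 0) ≤ d s)
    (fun g => ∑ i, g i ≤ M) (MonB e r d M), card_exp (Fin n × Fin r)]
  · simp
  · intro μ
    show (∀ s, xdb e s μ ≤ d s) ∧ jd μ ≤ M ↔ _
    rw [jd_split]
    simp only [xdb_split]

theorem box_finite {β : Type} [DecidableEq β] {m : β → ℕ} {n : ℕ} (e : Co m ≃ Fin n) (d : β → ℕ) :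
    Finite {f : Fin n → ℕ // ∀ s, (∑ b : Fin n, if (e.symm b).1 = s then f b else 0) ≤ d s} := by
  have h : {f : Fin n → ℕ | ∀ s, (∑ b : Fin n, if (e.symm b).1 = s then f b else 0) ≤ d s}.Finite := by
    refine Set.Finite.subset (Set.finite_Iic fun b : Fin n => d (e.symm b).1) fun f hf => ?_
    rw [Set.mem_Iic, Pi.le_def]
    intro b
    have h1 := hf (e.symm b).1
    refine le_trans ?_ h1
    have h2 := Finset.single_le_sum (f := fun b' : Fin n =>
      if (e.symm b').1 = (e.symm b).1 then f b' else 0) (fun _ _ => Nat.zero_le _) (Finset.mem_univ b)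
    simpa using h2
  exact h.to_subtype

theorem card_MonB_ge {β : Type} [Fintype β] [DecidableEq β] {m : β → ℕ} {n r : ℕ}
    (e : Co m ≃ Fin n) (hn : 1 ≤ n) (d : β → ℕ) (M : ℕ) :
    (∏ b : Fin n, ((d (e.symm b).1 : ℝ) / n)) * ((M + n * r).choose (n * r) : ℝ) ≤
      ((MonB e r d M).ncard : ℝ) := by
  rw [← Nat.card_coe_set_eq, card_MonB]
  push_cast
  refine mul_le_mul_of_nonneg_right ?_ (by positivity)
  have hfin := box_finite e d
  have h1 : Nat.card (∀ b : Fin n, Fin (d (e.symm b).1 / n + 1)) ≤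
      Nat.card {f : Fin n → ℕ // ∀ s, (∑ b : Fin n, if (e.symm b).1 = s then f b else 0) ≤ d s} := by
    refine Nat.card_le_card_of_injective (fun g => ⟨fun b => (g b : ℕ), fun s => ?_⟩) ?_
    · have h2 : ∀ b : Fin n, (if (e.symm b).1 = s then (g b : ℕ) else 0) ≤ d s / n := by
        intro b
        split_ifs with h
        · have h3 : ((g b : ℕ)) ≤ d (e.symm b).1 / n := Nat.lt_succ_iff.1 (g b).2
          have h4 : d (e.symm b).1 = d s := congrArg d h
          calc ((g b : ℕ)) ≤ d (e.symm b).1 / n := h3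
            _ = d s / n := by rw [h4]
        · exact Nat.zero_le _
      refine (Finset.sum_le_sum fun b _ => h2 b).trans ?_
      rw [Finset.sum_const, Finset.card_univ, Fintype.card_fin, smul_eq_mul]
      exact Nat.mul_div_le _ _
    · intro g g' h
      funext b
      exact Fin.ext (congrFun (congrArg Subtype.val h) b)
  have h2 : Nat.card (∀ b : Fin n, Fin (d (e.symm b).1 / n + 1)) =
      ∏ b : Fin n, (d (e.symm b).1 / n + 1) := by
    rw [Nat.card_pi]
    exact Finset.prod_congr rfl fun b _ => by rw [Nat.card_eq_fintype_card, Fintype.card_fin]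
  rw [h2] at h1
  refine le_trans ?_ (Nat.cast_le.2 h1)
  rw [Nat.cast_prod]
  refine Finset.prod_le_prod (fun b _ => by positivity) fun b _ => ?_
  rw [div_le_iff₀ (by exact_mod_cast hn)]
  have h3 := Nat.lt_div_mul_add (show 0 < n by omega) (a := d (e.symm b).1)
  have h4 : d (e.symm b).1 ≤ (d (e.symm b).1 / n + 1) * n := by
    rw [Nat.add_mul, one_mul]
    omega
  exact_mod_cast h4

end Pool.Agent.H78R
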