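import Pool.Agent.Lib.H78R.R0

set_option autoImplicit false

/-!
R2.  The greedy choice for families of forms, separately for every factor: `H78B.greedy_family`
for `T ∩ V_t`, which has codimension at most `c` in `V_t`.
-/

open MvPolynomial

namespace Pool.Agent.H78R

open Pool.Agent.H89T Pool.Agent.H53Y Pool.Agent.H78B Pool.Agent.H53R

/-- extension by zero of the families with `tl j = t` -/
noncomputable def r2ext {K : Type} [Field K] {τ ιL : Type} [DecidableEq τ] (tl : ιL → τ)
    (V : ιL → Type) [∀ j, AddCommGroup (V j)] [∀ j, Module K (V j)] (t : τ) :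
    (∀ j : {j : ιL // tl j = t}, V j.1) →ₗ[K] ∀ j, V j where
  toFun v j := if h : tl j = t then v ⟨j, h⟩ else 0
  map_add' v v' := by
    funext j
    by_cases h : tl j = t
    · simp only [Pi.add_apply, dif_pos h]
    · simp only [Pi.add_apply, dif_neg h, add_zero]
  map_smul' a v := by
    funext j
    by_cases h : tl j = t
    · simp only [Pi.smul_apply, dif_pos h, RingHom.id_apply]
    · simp only [Pi.smul_apply, dif_neg h, smul_zero]

theorem r2ext_apply {K : Type} [Field K] {τ ιL : Type} [DecidableEq τ] (tl : ιL → τ)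
    (V : ιL → Type) [∀ j, AddCommGroup (V j)] [∀ j, Module K (V j)] (t : τ)
    (v : ∀ j : {j : ιL // tl j = t}, V j.1) (j : ιL) :
    r2ext (K := K) tl V t v j = if h : tl j = t then v ⟨j, h⟩ else 0 := rfl

theorem r2ext_single {K : Type} [Field K] {τ ιL : Type} [DecidableEq τ] [DecidableEq ιL]
    (tl : ιL → τ) (V : ιL → Type) [∀ j, AddCommGroup (V j)] [∀ j, Module K (V j)] (t : τ)
    (j : {j : ιL // tl j = t}) (x : V j.1) :
    r2ext (K := K) tl V t (Pi.single j x) = Pi.single j.1 x := by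
  funext i
  rw [r2ext_apply]
  by_cases hi : i = j.1
  · subst hi
    rw [dif_pos j.2, Pi.single_eq_same]
    exact (Pi.single_eq_same (M := V) j.1 x).symm
  · rw [Pi.single_eq_of_ne hi]
    by_cases h : tl i = t
    · rw [dif_pos h]
      exact Pi.single_eq_of_ne (fun h' => hi (congrArg Subtype.val h')) _
    · rw [dif_neg h]

theorem r2ext_sum {K : Type} [Field K] {τ ιL : Type} [Fintype τ] [DecidableEq τ] (tl : ιL → τ)
    (V : ιL → Type) [∀ j, AddCommGroup (V j)] [∀ j, Module K (V j)]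
    (v : ∀ t : τ, ∀ j : {j : ιL // tl j = t}, V j.1) (j : ιL) :
    (∑ t, r2ext (K := K) tl V t (v t)) j = v (tl j) ⟨j, rfl⟩ := by
  rw [Finset.sum_apply, Finset.sum_eq_single (tl j)]
  · rw [r2ext_apply, dif_pos rfl]
  · intro t _ ht
    rw [r2ext_apply, dif_neg (fun h => ht h.symm)]
  · intro h
    exact absurd (Finset.mem_univ _) h

theorem greedy_prod {K : Type} [Field K] {n c : ℕ} {τ ιL : Type} [Fintype τ] [Fintype ιL]
    [DecidableEq ιL] (tl : ιL → τ)
    (d : ιL → ℕ) (hd : ∀ j, 1 ≤ d j) (g : ιL → MvPolynomial (Fin (n + 1)) K)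
    (hg : ∀ j, (g j).IsHomogeneous (d j)) (hg0 : ∀ j, eval (Pi.single 0 1) (g j) ≠ 0)
    (T : Submodule K (∀ j, homogeneousSubmodule (Fin (n + 1)) K (d j)))
    (hT : ∀ j, (Pi.single j ⟨g j, hg j⟩ : ∀ j, homogeneousSubmodule (Fin (n + 1)) K (d j)) ∈ T)
    (p : Fin c → ∀ j, homogeneousSubmodule (Fin (n + 1)) K (d j))
    (hp : T ⊔ Submodule.span K (Set.range p) = ⊤) :
    ∃ w : Fin c → ιL → MvPolynomial (Fin (n + 1)) K, (∀ i j, (w i j).IsHomogeneous (d j - 1)) ∧
      ∀ f : ∀ j, homogeneousSubmodule (Fin (n + 1)) K (d j), ∃ t ∈ T,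
        ∃ ν : τ → Fin c → Fin n → K,
        ∀ j, (f j : MvPolynomial (Fin (n + 1)) K) =
          t j + ∑ i, (∑ b, C (ν (tl j) i b) * X b.succ) * w i j := by
  classical
  obtain ⟨hfd, hfr⟩ := b3_fin T p hp
  have key : ∀ t : τ, ∃ w : Fin c → {j : ιL // tl j = t} → MvPolynomial (Fin (n + 1)) K,
      (∀ i j, (w i j).IsHomogeneous (d j.1 - 1)) ∧
      ∀ f : ∀ j : {j : ιL // tl j = t}, homogeneousSubmodule (Fin (n + 1)) K (d j.1),
        ∃ t' : ∀ j : {j : ιL // tl j = t}, homogeneousSubmodule (Fin (n + 1)) K (d j.1),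
        r2ext (K := K) tl (fun j => homogeneousSubmodule (Fin (n + 1)) K (d j)) t t' ∈ T ∧
        ∃ ν : Fin c → Fin n → K,
        ∀ j, (f j : MvPolynomial (Fin (n + 1)) K) =
          t' j + ∑ i, (∑ b, C (ν i b) * X b.succ) * w i j := by
    intro t
    obtain ⟨q, hq⟩ := b3_lift (T.mkQ ∘ₗ
      r2ext (K := K) tl (fun j => homogeneousSubmodule (Fin (n + 1)) K (d j)) t) hfr
    obtain ⟨w, hw1, hw2⟩ := greedy_family (n := n) (c := c) (fun j : {j : ιL // tl j = t} => d j.1)
      (fun j => hd j.1) (fun j => g j.1) (fun j => hg j.1) (fun j => hg0 j.1)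
      (T.comap (r2ext (K := K) tl (fun j => homogeneousSubmodule (Fin (n + 1)) K (d j)) t))
      (fun j => by
        rw [Submodule.mem_comap, r2ext_single (K := K) tl
          (fun j => homogeneousSubmodule (Fin (n + 1)) K (d j)) t j]
        exact hT j.1) q (by
        rw [eq_top_iff]
        rintro v -
        obtain ⟨μ, hμ⟩ := hq v
        have h1 : v - ∑ i, μ i • q i ∈
            T.comap (r2ext (K := K) tl (fun j => homogeneousSubmodule (Fin (n + 1)) K (d j)) t) := by
          rw [Submodule.mem_comap, ← Submodule.Quotient.mk_eq_zero]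
          have h2 : (T.mkQ ∘ₗ r2ext (K := K) tl
              (fun j => homogeneousSubmodule (Fin (n + 1)) K (d j)) t) (v - ∑ i, μ i • q i) = 0 := by
            rw [map_sub, hμ, map_sum]
            simp only [map_smul]
            exact sub_self _
          exact h2
        have h3 : v = (v - ∑ i, μ i • q i) + ∑ i, μ i • q i := (sub_add_cancel _ _).symm
        rw [h3]
        refine Submodule.add_mem_sup h1 (Submodule.sum_mem _ fun i _ => ?_)
        exact Submodule.smul_mem _ _ (Submodule.subset_span ⟨i, rfl⟩))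
    refine ⟨w, hw1, fun f => ?_⟩
    obtain ⟨t', ht', ν, h⟩ := hw2 f
    exact ⟨t', ht', ν, h⟩
  choose w hw1 hw2 using key
  refine ⟨fun i j => w (tl j) i ⟨j, rfl⟩, fun i j => hw1 (tl j) i ⟨j, rfl⟩, fun f => ?_⟩
  choose t' ht' ν h using fun t : τ => hw2 t (fun j => f j.1)
  refine ⟨∑ t, r2ext (K := K) tl (fun j => homogeneousSubmodule (Fin (n + 1)) K (d j)) t (t' t),
    Submodule.sum_mem _ fun t _ => ht' t, ν, fun j => ?_⟩
  rw [r2ext_sum (K := K) tl (fun j => homogeneousSubmodule (Fin (n + 1)) K (d j)) t' j]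
  exact h (tl j) ⟨j, rfl⟩

end Pool.Agent.H78R
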