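import Pool.Agent.Lib.H78R.R1

set_option autoImplicit false

/-!
R5, the port of Lib/H78B/B5.lean.  Complex values of the parameters of the generic extension.

Proof.  Copy `H89T.alg1` (Lib/H89T/DP7.lean).  `P = aeval (..) Θ` (the polynomial of `gen_independent`)
is not zero by B1, so `(∏ j, X (inl j)) * P ≠ 0` and it has a nonzero value at a point with complex
coordinates (`funext_set`).  `lam j`, `s i b`, `E j i = fm (coordinates)` are the coordinates of this
point; under `ρ = eval (algebraMap ℂ K ∘ point)` the polynomial `genR tl d j (g j)` becomes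
`big K (lam j) (psi s (E j)) (g j)` (see `h2` in `alg1`; `psi` is defined in Lib/H53Y/IDE.lean).
-/

open MvPolynomial

namespace Pool.Agent.H78R

open Pool.Agent.H89T Pool.Agent.H53Y Pool.Agent.H78B Pool.Agent.H53R

theorem r5_map {K : Type} [Field K] [Algebra ℂ K] {n c : ℕ} {τ₀ ιL : Type} (tl : ιL → τ₀)
    (d : ιL → ℕ) (pt : PR τ₀ ιL n c d → ℂ) (j : ιL) (g : MvPolynomial (Fin (n + 1)) K) :
    map (eval fun i => algebraMap ℂ K (pt i)) (genR tl d j g) =
      big K (pt (Sum.inl j)) (psi (fun i b => pt (Sum.inr (Sum.inl (tl j, i, b))))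
        (fun i => fm fun δ => pt (Sum.inr (Sum.inr ⟨j, i, δ⟩)))) g := by
  set ρ : MvPolynomial (PR τ₀ ιL n c d) K →+* K := eval fun i => algebraMap ℂ K (pt i) with hρ
  have hev : ρ.comp (C : K →+* MvPolynomial (PR τ₀ ιL n c d) K) = RingHom.id K := by
    ext x
    simp [hρ]
  rw [genR, big, psi]
  simp only [map_mul, map_add, map_sum, map_C, map_X, map_rename, map_map, hev, map_id,
    map_fm]
  simp [hρ]

theorem gen_specializeR {K : Type} [Field K] [Algebra ℂ K] {n c : ℕ} {τ₀ ιL : Type} [Fintype τ₀]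
    [Fintype ιL] (tl : ιL → τ₀)
    (d : ιL → ℕ) (hd : ∀ j, 1 ≤ d j) (g : ιL → MvPolynomial (Fin (n + 1)) K)
    (hg : ∀ j, (g j).IsHomogeneous (d j)) {τ : Type} [Fintype τ] (θ : τ → K)
    (w : Fin c → ιL → MvPolynomial (Fin (n + 1)) K)
    (hw : ∀ i j, (w i j).IsHomogeneous (d j - 1))
    (hspan : ∀ (f : ιL → MvPolynomial (Fin (n + 1)) K) (v : τ → K),
      (∀ j, (f j).IsHomogeneous (d j)) →
      ∃ (D : Derivation ℂ K K) (μ : ιL → K) (ν : τ₀ → Fin c → Fin n → K),
        (∀ j, f j = mcf D (g j) + C (μ j) * g j +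
          ∑ i, (∑ b, C (ν (tl j) i b) * X b.succ) * w i j) ∧
          ∀ t, D (θ t) = v t)
    (Θ : MvPolynomial (FV (Fin (n + 1) ⊕ Fin c) d ⊕ τ) ℂ) (hΘ : Θ ≠ 0) :
    ∃ (lam : ιL → ℂ) (s : τ₀ → Fin c → Fin n → ℂ)
      (E : ιL → Fin c → MvPolynomial (Fin (n + 1) ⊕ Fin c) ℂ),
      (∀ j, lam j ≠ 0) ∧ (∀ j i, (E j i).IsHomogeneous (d j - 1)) ∧
      aeval (Sum.elim (fun x : FV (Fin (n + 1) ⊕ Fin c) d =>
        coeff x.2.1 (big K (lam x.1) (psi (s (tl x.1)) (E x.1)) (g x.1))) θ) Θ ≠ 0 := by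
  classical
  set G : FV (Fin (n + 1) ⊕ Fin c) d ⊕ τ → MvPolynomial (PR τ₀ ιL n c d) K :=
    Sum.elim (fun x : FV (Fin (n + 1) ⊕ Fin c) d =>
      (coeff x.2.1 (genR tl d x.1 (g x.1)) : MvPolynomial (PR τ₀ ιL n c d) K)) (fun t => C (θ t)) with hG
  set P : MvPolynomial (PR τ₀ ιL n c d) K := aeval G Θ with hP
  have hP0 : (∏ j : ιL, (X (Sum.inl j) : MvPolynomial (PR τ₀ ιL n c d) K)) * P ≠ 0 :=
    mul_ne_zero (Finset.prod_ne_zero_iff.2 fun j _ => X_ne_zero _)
      fun h => hΘ (gen_independentR tl d hd g hg θ w hw hspan Θ h)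
  obtain ⟨pt, hpt⟩ : ∃ pt : PR τ₀ ιL n c d → ℂ, eval (fun i => algebraMap ℂ K (pt i))
      ((∏ j : ιL, (X (Sum.inl j) : MvPolynomial (PR τ₀ ιL n c d) K)) * P) ≠ 0 := by
    by_contra hcon
    push Not at hcon
    apply hP0
    refine funext_set (fun _ => Set.range (algebraMap ℂ K))
      (fun _ => Set.infinite_range_of_injective (algebraMap ℂ K).injective) fun x hx => ?_
    choose pt hpt using fun i => hx i trivial
    rw [← funext hpt, map_zero]
    exact hcon pt
  rw [map_mul, map_prod] at hpt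
  refine ⟨fun j => pt (Sum.inl j), fun t i b => pt (Sum.inr (Sum.inl (t, i, b))),
    fun j i => fm fun δ => pt (Sum.inr (Sum.inr ⟨j, i, δ⟩)), fun j h => ?_,
    fun j i => fm_homogeneous _, ?_⟩
  · have h1 := Finset.prod_ne_zero_iff.1 (left_ne_zero_of_mul hpt) j (Finset.mem_univ j)
    rw [eval_X] at h1
    have h' : pt (Sum.inl j) = 0 := h
    rw [h', map_zero] at h1
    exact h1 rfl
  · have h1 := right_ne_zero_of_mul hpt
    set ρ : MvPolynomial (PR τ₀ ιL n c d) K →+* K := eval fun i => algebraMap ℂ K (pt i) with hρ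
    have h4 : ρ.comp (algebraMap ℂ (MvPolynomial (PR τ₀ ιL n c d) K)) = algebraMap ℂ K := by
      ext x
      rw [RingHom.comp_apply, IsScalarTower.algebraMap_apply ℂ K (MvPolynomial (PR τ₀ ιL n c d) K),
        MvPolynomial.algebraMap_eq, hρ, eval_C]
    have h5 : ρ P = aeval (fun x => ρ (G x)) Θ := by
      rw [hP, aeval_def, aeval_def, hom_eval₂, h4]
    have h6 : (fun x => ρ (G x)) = Sum.elim (fun x : FV (Fin (n + 1) ⊕ Fin c) d =>
        coeff x.2.1 (big K (pt (Sum.inl x.1)) (psi (fun i b => pt (Sum.inr (Sum.inl (tl x.1, i, b))))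
          (fun i => fm fun δ => pt (Sum.inr (Sum.inr ⟨x.1, i, δ⟩)))) (g x.1))) θ := by
      funext x
      rcases x with x | t
      · change ρ (coeff x.2.1 (genR tl d x.1 (g x.1))) = coeff x.2.1 _
        rw [← r5_map tl d pt x.1 (g x.1), coeff_map]
      · change ρ (C (θ t)) = θ t
        rw [hρ, eval_C]
    rw [← h6, ← h5]
    exact h1

end Pool.Agent.H78R
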