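import Pool.Agent.Lib.H53R.D0
import Pool.Agent.Lib.H89Y.C10

set_option autoImplicit false

/-!
H78R, interface of the parts A and C of `AC_P` (Lib/H53R/IDE.lean).
-/

open MvPolynomial

namespace Pool.Agent.H78R

open Pool.Agent.H89T Pool.Agent.H78G Pool.Agent.H53Y Pool.Agent.H89Y Pool.Agent.H53R

section
variable {β : Type} [DecidableEq β] {m : β → ℕ} {n r : ℕ}

/-- The degree of a monomial in the coordinates of the block `s`. -/
def xdb (e : Co m ≃ Fin n) (s : β) (μ : JV n r →₀ ℕ) : ℕ :=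
  ∑ b : Fin n, if (e.symm b).1 = s then μ (b, 0) else 0

/-- The monomials of degree at most `d s` in the coordinates of the block `s` (for all `s`) and of
jet degree at most `M`. -/
def MonB (e : Co m ≃ Fin n) (r : ℕ) (d : β → ℕ) (M : ℕ) : Set (JV n r →₀ ℕ) :=
  {μ | (∀ s, xdb e s μ ≤ d s) ∧ jd μ ≤ M}

/-- Polynomials with monomials in `MonB`. -/
def HasMonB {R : Type*} [CommRing R] (e : Co m ≃ Fin n) (d : β → ℕ) (M : ℕ)
    (P : MvPolynomial (JV n r) R) : Prop :=
  ∀ μ ∈ P.support, (∀ s, xdb e s μ ≤ d s) ∧ jd μ ≤ M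

end

end Pool.Agent.H78R
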